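import Pool.Agent.W709.VC.Defs

/-!
Volume conjecture project (helper709), task VC-POT: elementary inequalities for the potential.
-/

set_option autoImplicit false

namespace Pool.Agent.W305.VC

open Filter Finset MeasureTheory GapVol EvenVol Pool.Agent.W709.VC
open scoped Real Topology

theorem one_lt_cosh {η : ℝ} (hη : 0 < η) : 1 < Real.cosh η := Real.one_lt_cosh.2 hη.ne'

theorem arg_pos {η : ℝ} (hη : 0 < η) (τ : ℝ) : 0 < 2 * Real.cosh η + 2 * Real.cos τ := by
  have h1 := one_lt_cosh hη
  have h2 := Real.neg_one_le_cos τ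
  linarith

theorem ell_cont {η : ℝ} (hη : 0 < η) : Continuous (ell η) := by
  unfold ell
  exact Continuous.log (by fun_prop) (fun τ => (arg_pos hη τ).ne')

theorem ell_le {η : ℝ} (hη : 0 < η) {s t : ℝ} (h : Real.cos s ≤ Real.cos t) :
    ell η s ≤ ell η t := by
  unfold ell
  exact Real.log_le_log (arg_pos hη s) (by linarith)

theorem Lf_deriv {η : ℝ} (hη : 0 < η) (x : ℝ) : HasDerivAt (Lf η) (ell η x) x :=
  ((ell_cont hη).integral_hasStrictDerivAt 0 x).hasDerivAt

theorem pot_deriv {m α η : ℝ} (hη : 0 < η) (b : ℝ) :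
    HasDerivAt (fun b => pot m α b η) (4 * m * η + (ell η (b + α) - ell η (b - α))) b := by
  have h1 : HasDerivAt (fun b => Lf η (b + α)) (ell η (b + α)) b := by
    have h := (Lf_deriv hη (b + α)).comp_add_const b α
    exact h
  have h2 : HasDerivAt (fun b => Lf η (b - α)) (ell η (b - α)) b := by
    have h := (Lf_deriv hη (b - α)).comp_sub_const b α
    exact h
  have h3 : HasDerivAt (fun b => 8 * lob (α / 2) + 4 * (m * b - π) * η) (4 * m * η) b := by
    have h4 : HasDerivAt (fun b => m * b) m b := by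
      simpa using (hasDerivAt_id b).const_mul m
    have h5 := (((h4.sub_const π).const_mul 4).mul_const η).const_add (8 * lob (α / 2))
    exact h5
  exact h3.add (h1.sub h2)

theorem pot_cont {m α η : ℝ} (hη : 0 < η) : Continuous (fun b => pot m α b η) :=
  continuous_iff_continuousAt.2 fun b => (pot_deriv hη b).continuousAt

theorem neg : S_NEG := by
  intro m α b η hm hη hα0 hα1 hb0 hb1
  have hmono : MonotoneOn (fun b => pot m α b η) (Set.Icc (-π) 0) := by
    refine monotoneOn_of_deriv_nonneg (convex_Icc _ _) (pot_cont hη).continuousOn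
      (fun x _ => (pot_deriv hη x).differentiableAt.differentiableWithinAt) ?_
    intro x hx
    rw [interior_Icc] at hx
    rw [(pot_deriv hη x).deriv]
    have h1 : Real.cos (x - α) ≤ Real.cos (x + α) := by
      rw [Real.cos_add, Real.cos_sub]
      have h2 : Real.sin x ≤ 0 := Real.sin_nonpos_of_nonpos_of_neg_pi_le hx.2.le hx.1.le
      have h3 : 0 ≤ Real.sin α := Real.sin_nonneg_of_nonneg_of_le_pi hα0 hα1
      nlinarith
    have h4 := ell_le hη h1
    have h5 : 0 ≤ 4 * m * η := by positivity
    linarith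
  exact hmono ⟨hb0, hb1⟩ ⟨by linarith [Real.pi_pos], le_rfl⟩ hb1

theorem real : S_REAL := by
  intro m α b b₁ h hm hh hα0 hα1 hb0 hb1 hb2
  have hanti : AntitoneOn (fun b => pot m α b h - 4 * m * h * b) (Set.Icc 0 π) := by
    have hd : ∀ x : ℝ, HasDerivAt (fun b => pot m α b h - 4 * m * h * b)
        (ell h (x + α) - ell h (x - α)) x := by
      intro x
      have h1 := (pot_deriv (m := m) (α := α) hh x).sub ((hasDerivAt_id x).const_mul (4 * m * h))
      refine h1.congr_deriv ?_
      ring
    refine antitoneOn_of_deriv_nonpos (convex_Icc _ _)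
      (fun x _ => (hd x).continuousAt.continuousWithinAt)
      (fun x _ => (hd x).differentiableAt.differentiableWithinAt) ?_
    intro x hx
    rw [interior_Icc] at hx
    rw [(hd x).deriv]
    have h1 : Real.cos (x + α) ≤ Real.cos (x - α) := by
      rw [Real.cos_add, Real.cos_sub]
      have h2 : 0 ≤ Real.sin x := Real.sin_nonneg_of_nonneg_of_le_pi hx.1.le hx.2.le
      have h3 : 0 ≤ Real.sin α := Real.sin_nonneg_of_nonneg_of_le_pi hα0 hα1
      nlinarith
    have h4 := ell_le hh h1
    linarith
  have h1 := hanti ⟨hb0, hb1.trans hb2⟩ ⟨hb0.trans hb1, hb2⟩ hb1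
  simp only at h1
  have h2 : 4 * m * h * (b - b₁) ≤ 4 * m * h * π :=
    mul_le_mul_of_nonneg_left (by linarith) (by positivity)
  nlinarith

theorem Lf_sub {η : ℝ} (hη : 0 < η) (x y : ℝ) :
    Lf η y - Lf η x = ∫ τ in x..y, ell η τ := by
  unfold Lf
  rw [intervalIntegral.integral_interval_sub_left ((ell_cont hη).intervalIntegrable _ _)
    ((ell_cont hη).intervalIntegrable _ _)]

theorem vup : S_VUP := by
  intro m α η η' hm hη hηη' hα
  have hη' : 0 < η' := lt_of_lt_of_le hη hηη'
  unfold pot
  rw [mul_div_cancel₀ _ hm.ne', sub_self, mul_zero, zero_mul, zero_mul, add_zero, Lf_sub hη,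
    Lf_sub hη']
  have h1 : ∫ τ in (π / m - α)..(π / m + α), ell η τ ≤
      ∫ τ in (π / m - α)..(π / m + α), ell η' τ := by
    apply intervalIntegral.integral_mono_on (by linarith)
      ((ell_cont hη).intervalIntegrable _ _) ((ell_cont hη').intervalIntegrable _ _)
    intro τ _
    unfold ell
    apply Real.log_le_log (arg_pos hη τ)
    have : Real.cosh η ≤ Real.cosh η' := by
      rw [Real.cosh_le_cosh, abs_of_pos hη, abs_of_pos hη']
      exact hηη'
    linarith
  linarith

/-- the duplication formula -/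
theorem lob_two_mul (x : ℝ) : lob (2 * x) = 2 * lob x + 2 * lob (x + π / 2) := by
  have h1 : lob (2 * x) = 2 * ∫ u in (0:ℝ)..x, g (2 * u) := by
    rw [lob_eq]
    have := intervalIntegral.integral_comp_mul_left (a := 0) (b := x) (c := 2) g (by norm_num)
    rw [this, smul_eq_mul, mul_zero]
    ring
  have h2 : ∫ u in (0:ℝ)..x, g (2 * u) = ∫ u in (0:ℝ)..x, (g u + g (π / 2 + u)) := by
    apply intervalIntegral.integral_congr_ae
    filter_upwards [sin_ae_ne, LobIneq.ae_add (π / 2)] with u hu1 hu2 _
    rw [LobIneq.g_eq_abs, LobIneq.g_eq_abs, LobIneq.g_eq_abs, ← neg_add, ← Real.log_mul]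
    · congr 2
      rw [← abs_mul, add_comm (π / 2) u, Real.sin_add_pi_div_two, Real.sin_two_mul]
      congr 1
      ring
    · exact abs_ne_zero.2 (mul_ne_zero two_ne_zero hu1)
    · exact abs_ne_zero.2 (mul_ne_zero two_ne_zero hu2)
  rw [intervalIntegral.integral_add (g_int _ _) (LobIneq.g_int_add (π / 2) 0 x)] at h2
  have h3 : ∫ u in (0:ℝ)..x, g (π / 2 + u) = lob (π / 2 + x) - lob (π / 2) := by
    rw [intervalIntegral.integral_comp_add_left g (π / 2), lob_sub, add_zero]
  rw [h3, lob_half, ← lob_eq] at h2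
  rw [h1, h2, add_comm (π / 2) x]
  ring

theorem ten : S_TEN := by
  intro m η hm hη
  have hpi := Real.pi_pos
  have hm0 : 0 < m := by linarith
  set b : ℝ := π / m with hb
  have hb0 : 0 < b := by positivity
  have hb2 : b ≤ π / 2 := div_le_div_of_nonneg_left hpi.le (by norm_num) hm
  unfold pot
  rw [mul_div_cancel₀ _ hm0.ne', sub_self, mul_zero, zero_mul, add_zero, Lf_sub hη]
  have e6 : π / 3 / 2 = π / 6 := by ring
  rw [e6]
  -- lower bound for the integral
  have h1 : ∫ τ in (b - π / 3)..(b + π / 3), (-2 * g (1 / 2 * τ + π / 2)) ≤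
      ∫ τ in (b - π / 3)..(b + π / 3), ell η τ := by
    have hint : IntervalIntegrable (fun τ => -2 * g (1 / 2 * τ + π / 2)) volume
        (b - π / 3) (b + π / 3) := by
      apply ContinuousOn.intervalIntegrable
      rw [Set.uIcc_of_le (by linarith)]
      intro τ hτ
      have hs : Real.sin (1 / 2 * τ + π / 2) ≠ 0 := by
        rw [Real.sin_add_pi_div_two]
        apply (Real.cos_pos_of_mem_Ioo ⟨by linarith [hτ.1], by linarith [hτ.2]⟩).ne'
      have hc : ContinuousAt (fun τ : ℝ => -2 * g (1 / 2 * τ + π / 2)) τ := by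
        unfold g
        refine continuousAt_const.mul (ContinuousAt.neg (ContinuousAt.log (by fun_prop) ?_))
        exact mul_ne_zero two_ne_zero hs
      exact hc.continuousWithinAt
    apply intervalIntegral.integral_mono_on (by linarith) hint
      ((ell_cont hη).intervalIntegrable _ _)
    intro τ hτ
    have hc : 0 < Real.cos (1 / 2 * τ) :=
      Real.cos_pos_of_mem_Ioo ⟨by linarith [hτ.1], by linarith [hτ.2]⟩
    unfold g ell
    rw [Real.sin_add_pi_div_two]
    have e1 : -2 * -Real.log (2 * Real.cos (1 / 2 * τ)) =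
        Real.log ((2 * Real.cos (1 / 2 * τ)) ^ 2) := by
      rw [Real.log_pow]; push_cast; ring
    rw [e1]
    apply Real.log_le_log (by positivity)
    have e2 : Real.cos τ = 2 * Real.cos (1 / 2 * τ) ^ 2 - 1 := by
      rw [← Real.cos_two_mul]; congr 1; ring
    rw [e2]
    have := one_lt_cosh hη
    nlinarith
  have h2 : ∫ τ in (b - π / 3)..(b + π / 3), (-2 * g (1 / 2 * τ + π / 2)) =
      4 * (lob (π / 3 + b / 2) + lob (π / 3 - b / 2)) := by
    rw [intervalIntegral.integral_const_mul]
    have e3 := intervalIntegral.integral_comp_mul_add (a := b - π / 3) (b := b + π / 3) g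
      (by norm_num : (1 / 2 : ℝ) ≠ 0) (π / 2)
    rw [e3, ← lob_sub, smul_eq_mul]
    have e4 : 1 / 2 * (b + π / 3) + π / 2 = -(π / 3 - b / 2) + π := by ring
    have e5 : 1 / 2 * (b - π / 3) + π / 2 = π / 3 + b / 2 := by ring
    rw [e4, e5, LobIneq.lob_per, LobIneq.lob_neg]
    ring
  -- monotonicity in `b`
  have h3 : lob (π / 3 + π / 4) + lob (π / 3 - π / 4) ≤
      lob (π / 3 + b / 2) + lob (π / 3 - b / 2) := by
    have e7 := LobIneq.dphi (π / 3) (b / 2) (π / 4)
    have e8 : 0 ≤ ∫ s in (b / 2)..(π / 4), (g (π / 3 - s) - g (π / 3 + s)) := by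
      apply intervalIntegral.integral_nonneg (by linarith)
      intro s hs
      have hs1 : 0 < Real.sin (π / 3 - s) :=
        Real.sin_pos_of_pos_of_lt_pi (by linarith [hs.2]) (by linarith [hs.1])
      have hs2 : Real.sin (π / 3 - s) ^ 2 ≤ Real.sin (π / 3 + s) ^ 2 := by
        have h5 := LobIneq.sin_sq_diff (π / 3) s
        have h6 : 0 ≤ Real.sin (2 * (π / 3)) :=
          Real.sin_nonneg_of_nonneg_of_le_pi (by linarith) (by linarith)
        have h7 : 0 ≤ Real.sin (2 * s) :=
          Real.sin_nonneg_of_nonneg_of_le_pi (by linarith [hs.1]) (by linarith [hs.2])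
        have h8 : 0 ≤ Real.sin (2 * (π / 3)) * Real.sin (2 * s) := mul_nonneg h6 h7
        linarith
      have := LobIneq.g_le hs1.ne' hs2
      linarith
    have e13 : ∫ s in (b / 2)..(π / 4), (g (π / 3 + s) - g (π / 3 - s)) =
        -∫ s in (b / 2)..(π / 4), (g (π / 3 - s) - g (π / 3 + s)) := by
      rw [← intervalIntegral.integral_neg]
      congr 1
      ext s
      ring
    linarith
  have h4 : lob (π / 3 + π / 4) + lob (π / 3 - π / 4) = lob (π / 6) / 2 := by
    have e9 := lob_two_mul (π / 12)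
    have e10 : 2 * (π / 12) = π / 6 := by ring
    have e11 : π / 12 + π / 2 = π / 3 + π / 4 := by ring
    have e12 : π / 12 = π / 3 - π / 4 := by ring
    rw [e10, e11] at e9
    rw [← e12]
    linarith
  linarith

end Pool.Agent.W305.VC
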